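import Mathlib
import Pool.Agent.Helper891_RP.RcT
import Pool.Agent.Helper891_RP.Tri
import Pool.Agent.R384.NormL
import Pool.Agent.Y682.XD.Fin
import Pool.Agent.Y682.YQ.Inr
import Pool.Agent.Y419.XD.Ram

/-!
# Bloch–Kato Selmer groups over `K = ℚ(√-7)` and over the fields `K F`

Let `F` be a Galois extension of `ℚ` of odd degree and of odd narrow class number which has only one
prime above `2` and above `7`; for example a layer of the cyclotomic `ℤ₃`-extension of `ℚ`. Let `V` be a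
`2`-adic representation of the absolute Galois group of `K = ℚ(√-7)` with a lattice `T` such that `T / 2 T`
is trivial and such that `T` is the direct sum of two submodules which are stable by the decomposition
groups at the two primes above `2`, and assume that `V` is unramified at the odd primes `p` which are not
below one prime of `F` only. Then the restriction `H¹_f(K, V) → H¹_f(K F, V)` is an isomorphism.

This holds for the tensor products `V_2(E_1) ⊗ ... ⊗ V_2(E_n) (-m)`, `n = 2 m + 1`, of the curves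
`E_{t,d} : y² = x (x + d a²) (x + d b²)`, `t = (a, b, c)`, `a² = b² + c²`, `a` and `d` prime to `2`,
`ω² ∣ b`, `(1 - ω)² ∣ c`. It follows that for all `n` the Selmer groups of such products are zero in the
whole cyclotomic `ℤ₃`-extension of `K`, for infinitely many twists.
-/

set_option autoImplicit false

namespace Pool.Agent.Results.MP_787500_nt.OddBaseChange

open WeierstrassCurve NumberField IsDedekindDomain
open scoped Classical
open Pool.Agent.Y682 (NCl)

/-! ### The curves -/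

/-- An algebraic closure of `ℚ`. -/
abbrev QBar : Type := AlgebraicClosure ℚ

/-- The ring of integers `ℤ[ω]`, `ω² = ω - 2`, of `ℚ(√-7)`. -/
abbrev OK : Type := QuadraticAlgebra ℤ (-2) 1

/-- The element `ω`. -/
def om : OK := ⟨0, 1⟩

/-- The field `K = ℚ(w)`. It is `ℚ(√-7)` if `w² = w - 2`. -/
noncomputable abbrev K (w : QBar) : IntermediateField ℚ QBar := IntermediateField.adjoin ℚ {w}

/-- `w` as an element of `K`. -/
noncomputable def gen (w : QBar) : K w := ⟨w, IntermediateField.mem_adjoin_simple_self ℚ w⟩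

/-- The element `a + b ω` of `ℤ[ω]` as an element of the field `L`, `w` being the image of `ω`. -/
def emb {L : Type} [Ring L] (w : L) (z : OK) : L := z.re + z.im * w

/-- A triple of elements of `ℤ[ω]`. -/
structure Triple where
  (a b c : OK)

/-- The triples `(a, b, c)` such that `a² = b² + c²`, `a b c ≠ 0`, `a` is prime to `2`, `ω² ∣ b` and
`(1 - ω)² ∣ c`. -/
structure Triple.Adm (t : Triple) : Prop where
  pyth : t.a ^ 2 = t.b ^ 2 + t.c ^ 2
  ne : t.a * t.b * t.c ≠ 0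
  odd : IsCoprime t.a 2
  two : om ^ 2 ∣ t.b ∧ (1 - om) ^ 2 ∣ t.c

/-- The curve `y² = x (x + d a²) (x + d b²)`. -/
def curve {F : Type} [Field F] (d a b : F) : WeierstrassCurve F :=
  ⟨0, d * (a ^ 2 + b ^ 2), 0, d ^ 2 * a ^ 2 * b ^ 2, 0⟩

/-- The curve `E_{t,d} : y² = x (x + d a²) (x + d b²)` over `K`, `t = (a, b, c)`. -/
noncomputable def E (w : QBar) (t : Triple) (d : OK) : WeierstrassCurve (K w) :=
  curve (emb (gen w) d) (emb (gen w) t.a) (emb (gen w) t.b)

/-- The absolute Galois group of `K`. -/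
abbrev Gal (w : QBar) : Type := QBar ≃ₐ[K w] QBar

/-- The group `E_{t,d}(ℚ̄)`. -/
abbrev Pts (w : QBar) (t : Triple) (d : OK) : Type := ((E w t d).toAffine.baseChange QBar).Point

/-- The action of the Galois group on `E_{t,d}(ℚ̄)`. -/
noncomputable def act {w : QBar} {t : Triple} {d : OK} (σ : Gal w) : Pts w t d →+ Pts w t d :=
  Affine.Point.map (W' := (E w t d).toAffine) (S := K w) (F := QBar) (K := QBar) σ.toAlgHom

/-! ### The Tate modules -/

/-- The sequences `e 0` and `e 1` are elements of the `2`-adic Tate module of the abelian group `A`,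
and they are a basis of it. -/
structure IsBasis {A : Type} [AddCommGroup A] (e : Fin 2 → ℕ → A) : Prop where
  zero : ∀ i, e i 0 = 0
  double : ∀ i n, e i (n + 1) + e i (n + 1) = e i n
  span : ∀ (n : ℕ) (P : A), (2 ^ n : ℤ) • P = 0 → ∃ k : Fin 2 → ℤ, P = ∑ i, k i • e i n
  indep : ∀ (n : ℕ) (k : Fin 2 → ℤ), ∑ i, k i • e i n = 0 → ∀ i, (2 ^ n : ℤ) ∣ k i

/-- `M` is the matrix of the endomorphism `f` of the abelian group `A` on the basis `e` of the
`2`-adic Tate module. -/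
def ActsBy {A : Type} [AddCommGroup A] (f : A →+ A) (e : Fin 2 → ℕ → A)
    (M : Matrix (Fin 2) (Fin 2) ℤ_[2]) : Prop :=
  ∀ (n : ℕ) (k : Fin 2 → Fin 2 → ℤ), (∀ i j, (2 : ℤ_[2]) ^ n ∣ M i j - k i j) →
    ∀ j, f (e j n) = ∑ i, k i j • e i n

/-- The embeddings of `ℚ̄` in `ℚ̄_p`, which give the places above `p`. -/
def Emb (p : ℕ) [Fact p.Prime] : Type := QBar →ₐ[ℚ] PadicAlgCl p

/-- The image of `x` by the embedding `ι`. -/
noncomputable def Emb.map {p : ℕ} [Fact p.Prime] (ι : Emb p) (x : QBar) : PadicAlgCl p :=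
  DFunLike.coe (F := QBar →ₐ[ℚ] PadicAlgCl p) ι x

/-- The point `P` is zero, or its first coordinate `x` satisfies `|x + s| > 1 / 4`: in other words
`P` is in the kernel of the reduction for the coordinate `(x + s) / 4`. -/
def InKer (ι : Emb 2) (s : QBar) {W : Affine QBar} : W.Point → Prop
  | .zero => True
  | .some x _ _ => 1 / 4 < ‖ι.map (x + s)‖

/-- `e 0`, `e 1` is a basis of the `2`-adic Tate module of `E_{t,d}`, `ρ` is the action of the Galois
group on this basis, `e 0` is in the kernel of the reduction at the place `ι₁`, for the coordinate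
`x / 4`, and `e 1` is in the kernel of the reduction at the place `ι₂`, for the coordinate
`(x + d a²) / 4`. -/
structure Frame {w : QBar} (ι₁ ι₂ : Emb 2) (t : Triple) (d : OK)
    (e : Fin 2 → ℕ → Pts w t d) (ρ : Gal w → Matrix (Fin 2) (Fin 2) ℤ_[2]) : Prop where
  basis : IsBasis e
  acts : ∀ σ, ActsBy (act σ) e (ρ σ)
  ker₁ : ∀ n, InKer ι₁ 0 (e 0 n)
  ker₂ : ∀ n, InKer ι₂ (emb w (d * t.a ^ 2)) (e 1 n)

/-! ### The Selmer groups -/

/-- The decomposition group of the place of `K` given by the embedding `ι` of `ℚ̄`. -/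
def Dec {w : QBar} {p : ℕ} [Fact p.Prime] (ι : Emb p) : Set (Gal w) :=
  {σ | ∃ τ : PadicAlgCl p ≃ₐ[ℚ_[p]] PadicAlgCl p, ∀ x, τ (ι.map x) = ι.map (σ x)}

/-- Its inertia group: the automorphisms which are trivial on the residue field. -/
def Inr {w : QBar} {p : ℕ} [Fact p.Prime] (ι : Emb p) : Set (Gal w) :=
  {σ | ∃ τ : PadicAlgCl p ≃ₐ[ℚ_[p]] PadicAlgCl p, (∀ x, τ (ι.map x) = ι.map (σ x)) ∧
    ∀ z : PadicAlgCl p, ‖z‖ ≤ 1 → ‖τ z - z‖ < 1}

/-- The `2`-adic cyclotomic character. -/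
noncomputable def cyc {w : QBar} (σ : Gal w) : ℤ_[2]ˣ := cyclotomicCharacter QBar 2 σ.toRingEquiv

/-- The action of the group `G` on `V_1 ⊗ ... ⊗ V_n ⊗ χ⁻ⁱ`, where `ρ k` is the action on the basis
`e 0`, `e 1` of `V_k`. The coordinate `α` is the coefficient of `e (α 1) ⊗ ... ⊗ e (α n)`. -/
noncomputable def tens {G : Type} {n : ℕ} (ρ : Fin n → G → Matrix (Fin 2) (Fin 2) ℤ_[2])
    (χ : G → ℤ_[2]ˣ) (i : ℕ) (σ : G) (v : (Fin n → Fin 2) → ℚ_[2]) : (Fin n → Fin 2) → ℚ_[2] :=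
  fun α => ∑ β, ((((χ σ)⁻¹ ^ i : ℤ_[2]ˣ) * ∏ k, ρ k σ (α k) (β k) : ℤ_[2]) : ℚ_[2]) * v β

/-- `c` is a continuous cocycle of `G` with values in `ℚ_2 ^ B`, where `σ` acts by `A σ`. -/
structure IsCocycle {G B : Type} [Group G] [TopologicalSpace G]
    (A : G → (B → ℚ_[2]) → B → ℚ_[2]) (c : G → B → ℚ_[2]) : Prop where
  cont : Continuous c
  mul : ∀ σ τ, c (σ * τ) = c σ + A σ (c τ)

/-- The restriction of the cocycle `c` to the subset `H` of `G` is the coboundary of a vector `y` as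
far as the coordinates `α ∈ S` are concerned. -/
def TrivialOn {G B : Type} (A : G → (B → ℚ_[2]) → B → ℚ_[2]) (H : Set G) (S : Set B)
    (c : G → B → ℚ_[2]) : Prop :=
  ∃ y : B → ℚ_[2], ∀ σ ∈ H, ∀ α ∈ S, c σ α = A σ y α - y α

/-- The Selmer conditions for a cocycle `c` of the group `G`, where `j` is a map from `G` to the absolute
Galois group of `K` (the inclusion of a subgroup, or the identity) : `c` is trivial on the inertia groups
of the places prime to `2`; at the place `ι₁` it is trivial modulo the space generated by the vectors of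
the standard basis which are not in `S`, and at the place `ι₂` modulo the space generated by those which
are in `S`. -/
structure IsSelmer {w : QBar} {G : Type} (j : G → Gal w) (ι₁ ι₂ : Emb 2) {B : Type} (S : Set B)
    (A : G → (B → ℚ_[2]) → B → ℚ_[2]) (c : G → B → ℚ_[2]) : Prop where
  odd : ∀ (p : ℕ) [Fact p.Prime] (ι : Emb p), p ≠ 2 → TrivialOn A (j ⁻¹' Inr ι) Set.univ c
  two₁ : TrivialOn A (j ⁻¹' Dec ι₁) S c
  two₂ : TrivialOn A (j ⁻¹' Dec ι₂) Sᶜ c

/-- The restriction from the group `G` to the group `H` by the map `r` is injective on `H¹`, and it gives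
an isomorphism of the Selmer groups. -/
structure SelmerIso {w : QBar} {G H : Type} [Group G] [TopologicalSpace G] [Group H]
    [TopologicalSpace H] (r : H → G) (j : G → Gal w) (ι₁ ι₂ : Emb 2) {B : Type} (S : Set B)
    (A : G → (B → ℚ_[2]) → B → ℚ_[2]) : Prop where
  inj : ∀ C, IsCocycle A C → TrivialOn A (Set.range r) Set.univ C → TrivialOn A Set.univ Set.univ C
  surj : ∀ c, IsCocycle (fun σ => A (r σ)) c →
    IsSelmer (fun σ => j (r σ)) ι₁ ι₂ S (fun σ => A (r σ)) c →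
    ∃ C, IsCocycle A C ∧ IsSelmer j ι₁ ι₂ S A C ∧ ∀ σ, C (r σ) = c σ

/-- All the classes of the Selmer group of `H` are trivial. -/
def SelmerZero {w : QBar} {H : Type} [Group H] [TopologicalSpace H] (j : H → Gal w) (ι₁ ι₂ : Emb 2)
    {B : Type} (S : Set B) (A : H → (B → ℚ_[2]) → B → ℚ_[2]) : Prop :=
  ∀ c, IsCocycle A c → IsSelmer j ι₁ ι₂ S A c → TrivialOn A Set.univ Set.univ c

/-- The coordinates with at most `m` factors `e 0`, and hence more than `m` factors `e 1` : for the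
`n`-fold tensor products, `n = 2 m + 1`, the spaces of the Bloch–Kato conditions at `ι₁` and `ι₂` are
generated by the tensors with more than `m` factors `e 0`, respectively `e 1`. -/
def Few {n : ℕ} (m : ℕ) : Set (Fin n → Fin 2) := {α | (Finset.univ.filter fun k => α k = 0).card ≤ m}

/-- The action by the matrices `ρ σ` with coefficients in `ℤ_2` on `ℚ_2 ^ B`. -/
noncomputable def mat {G B : Type} [Fintype B] (ρ : G → Matrix B B ℤ_[2]) (σ : G)
    (v : B → ℚ_[2]) : B → ℚ_[2] :=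
  fun α => ∑ β, (ρ σ α β : ℚ_[2]) * v β

/-- `ρ` is a homomorphism to the invertible matrices. -/
def IsRep {G B : Type} [Group G] [Fintype B] (ρ : G → Matrix B B ℤ_[2]) : Prop :=
  ρ 1 = 1 ∧ ∀ σ τ, ρ (σ * τ) = ρ σ * ρ τ

/-- The matrix `M` is the identity modulo `2`. -/
def TrivialModTwo {B : Type} (M : Matrix B B ℤ_[2]) : Prop := ∀ α β, (2 : ℤ_[2]) ∣ (M - 1) α β

/-- `ρ` is a representation, and the action on `ℤ_2 ^ B` is trivial modulo `2`; the submodule generated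
by the vectors which are not in `S` is stable by the decomposition group at `ι₁`, and the submodule
generated by the vectors in `S` is stable by the decomposition group at `ι₂`. -/
structure Splits {w : QBar} (ι₁ ι₂ : Emb 2) {B : Type} [Fintype B] (S : Set B)
    (ρ : Gal w → Matrix B B ℤ_[2]) : Prop where
  rep : IsRep ρ
  two : ∀ σ, TrivialModTwo (ρ σ)
  st₁ : ∀ σ ∈ Dec ι₁, ∀ α ∈ S, ∀ β ∉ S, ρ σ α β = 0
  st₂ : ∀ σ ∈ Dec ι₂, ∀ α ∉ S, ∀ β ∈ S, ρ σ α β = 0

/-! ### The fields `F` -/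

/-- `F` has only one prime above `p`. -/
def OnePrime (F : Type) [Field F] [NumberField F] (p : ℕ) : Prop :=
  ∀ v w : HeightOneSpectrum (𝓞 F), (p : 𝓞 F) ∈ v.asIdeal → (p : 𝓞 F) ∈ w.asIdeal → v = w

/-- `F` is a Galois extension of `ℚ` of odd degree, its narrow class number is odd, and it has only one
prime above `2` and above `7`. -/
structure OddField (F : Type) [Field F] [NumberField F] : Prop where
  gal : IsGalois ℚ F
  deg : Odd (Module.finrank ℚ F)
  ncl : Odd (Nat.card (NCl F))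
  two : OnePrime F 2
  seven : OnePrime F 7

/-- The absolute Galois group of the field `K F`, as a subgroup of the absolute Galois group of `K`;
`i` is an embedding of `F` in the algebraic closure. -/
noncomputable abbrev GalF (w : QBar) {F : Type} [Field F] (i : F →+* QBar) : Subgroup (Gal w) :=
  (IntermediateField.adjoin (K w) (Set.range i)).fixingSubgroup

/-- The Selmer group of the subgroup `H` of `G` is the one of `G`, by the restriction. -/
def Same {w : QBar} {G : Type} [Group G] [TopologicalSpace G] (H : Subgroup G) (j : G → Gal w)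
    (ι₁ ι₂ : Emb 2) {B : Type} (S : Set B) (A : G → (B → ℚ_[2]) → B → ℚ_[2]) : Prop :=
  SelmerIso (fun σ : H => (σ : G)) j ι₁ ι₂ S A

/-- The Selmer group of the subgroup `H` of `G` is zero. -/
def Zero {w : QBar} {G : Type} [Group G] [TopologicalSpace G] (H : Subgroup G) (j : G → Gal w)
    (ι₁ ι₂ : Emb 2) {B : Type} (S : Set B) (A : G → (B → ℚ_[2]) → B → ℚ_[2]) : Prop :=
  SelmerZero (fun σ : H => j σ) ι₁ ι₂ S (fun σ => A σ)

/-- The Selmer group over `K F` of the representation given by `A` is the one over `K`. -/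
def SameOver {w : QBar} {F : Type} [Field F] (i : F →+* QBar) (ι₁ ι₂ : Emb 2) {B : Type} (S : Set B)
    (A : Gal w → (B → ℚ_[2]) → B → ℚ_[2]) : Prop := Same (GalF w i) id ι₁ ι₂ S A

/-- The Selmer group over `K F` of the representation given by `A` is zero. -/
def ZeroOver {w : QBar} {F : Type} [Field F] (i : F →+* QBar) (ι₁ ι₂ : Emb 2) {B : Type} (S : Set B)
    (A : Gal w → (B → ℚ_[2]) → B → ℚ_[2]) : Prop := Zero (GalF w i) id ι₁ ι₂ S A

/-! ### The twists -/

/-- `x` is a square modulo `q`. -/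
def IsSquareMod (q x : OK) : Prop := ∃ y : OK, q ∣ x - y ^ 2

/-- `D = ± q_1 ... q_n`, the `q_i` are distinct primes congruent to `1` modulo `4`, their product is
congruent to `5` modulo `8`, and the only ways to write `{1, ..., n}` as the union of two disjoint
subsets `S` and `T` such that the product of the `q_k`, `k ∈ S`, is a square modulo the `q_i`,
`i ∈ T`, and conversely, are the trivial ones. By quadratic reciprocity, this means that the graph
with edges `{i, k}` for the pairs such that `q_i` is not a square modulo `q_k` has an odd number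
of spanning trees. -/
structure Good {n : ℕ} (q : Fin n → OK) (D : OK) : Prop where
  prime : ∀ i, Prime (q i)
  one : ∀ i, (4 : OK) ∣ q i - 1
  inj : Function.Injective q
  prod : D = ∏ i, q i ∨ D = -∏ i, q i
  five : (8 : OK) ∣ ∏ i, q i - 5
  indec : ∀ S : Finset (Fin n), (∀ i, i ∉ S → IsSquareMod (q i) (∏ k ∈ S, q k)) →
    (∀ i, i ∈ S → IsSquareMod (q i) (∏ k ∈ Sᶜ, q k)) → S = ∅ ∨ S = Finset.univ

/-- `π` is a prime, it does not divide `2`, and it divides `a b c`, `t = (a, b, c)`. -/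
def BadPrime (t : Triple) (π : OK) : Prop := Prime π ∧ ¬ π ∣ 2 ∧ π ∣ t.a * t.b * t.c

/-- `-1` is a square modulo the bad primes. -/
def Fine (t : Triple) : Prop := ∀ π, BadPrime t π → IsSquareMod π (-1)

/-- `D` is not a square modulo the bad primes. -/
def NonSquare (t : Triple) (D : OK) : Prop := ∀ π, BadPrime t π → ¬ IsSquareMod π D

/-- There is a prime of `ℤ[ω]` above the rational prime `p` which divides `x`. -/
def Below (x : OK) (p : ℕ) : Prop := ∃ π : OK, Prime π ∧ π ∣ (p : OK) ∧ π ∣ x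

/-- `p` is `3` or congruent to `2`, `4`, `5`, `7` modulo `9`. -/
def Nine (p : ℕ) : Prop := p = 3 ∨ p % 9 = 2 ∨ p % 9 = 4 ∨ p % 9 = 5 ∨ p % 9 = 7

/-- `t` is admissible, and the bad primes are above rational primes which are `3` or `2`, `4`, `5`, `7`
modulo `9`. -/
def TNine (t : Triple) : Prop := t.Adm ∧ Fine t ∧
  ∀ p : ℕ, p.Prime → p ≠ 2 → Below (t.a * t.b * t.c) p → Nine p

/-- `w` is the image of `ω` in the algebraic closure, and `ι₁`, `ι₂` give the two places of `K` above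
`2`, the one of `ω` and the one of `1 - ω`. -/
structure Places (w : QBar) (ι₁ ι₂ : Emb 2) : Prop where
  root : w ^ 2 = w - 2
  one : ‖ι₁.map w‖ < 1
  two : ‖ι₂.map (1 - w)‖ < 1

/-- At every odd prime `p`, `F` has only one prime above `p` or `ρ` is trivial on the inertia groups. -/
def Ramified {w : QBar} {B : Type} (ρ : Gal w → Matrix B B ℤ_[2]) (F : Type) [Field F]
    [NumberField F] : Prop :=
  ∀ (p : ℕ) [Fact p.Prime], p ≠ 2 → OnePrime F p ∨ ∀ ι : Emb p, ∀ σ ∈ Inr ι, ρ σ = 1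

/-- The curves `E_{t k, d k}` : the triples are admissible, the `d k` are prime to `2`, and their product
is `D` modulo squares. -/
def Curves {n : ℕ} (t : Fin n → Triple) (d : Fin n → OK) (D : OK) : Prop :=
  (∀ k, (t k).Adm ∧ IsCoprime (d k) 2) ∧ D ≠ 0 ∧ ∃ s : OK, ∏ k, d k = D * s ^ 2

/-- `ρ k` is the action on the Tate module of `E_{t k, d k}` with a basis as in `Frame`, for all `k`. -/
def Framed {w : QBar} (ι₁ ι₂ : Emb 2) {n : ℕ} (t : Fin n → Triple) (d : Fin n → OK)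
    (ρ : Fin n → Gal w → Matrix (Fin 2) (Fin 2) ℤ_[2]) : Prop :=
  ∃ e : ∀ k, Fin 2 → ℕ → Pts w (t k) (d k), ∀ k, Frame ι₁ ι₂ (t k) (d k) (e k) (ρ k)

/-- `F` has only one prime above every odd rational prime below a prime divisor of `D ∏ a_k b_k c_k`. -/
def Bad {n : ℕ} (t : Fin n → Triple) (D : OK) (F : Type) [Field F] [NumberField F] : Prop :=
  ∀ p : ℕ, p.Prime → p ≠ 2 → Below (D * ∏ k, (t k).a * (t k).b * (t k).c) p → OnePrime F p

/-- The Selmer groups over `K F` of the twisted tensor products are the ones over `K`. -/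
def IsoF {w : QBar} (ι₁ ι₂ : Emb 2) {m : ℕ}
    (ρ : Fin (2 * m + 1) → Gal w → Matrix (Fin 2) (Fin 2) ℤ_[2]) (F : Type) [Field F] : Prop :=
  ∀ i : F →+* QBar, SameOver i ι₁ ι₂ (Few m) (tens ρ cyc m)

/-- The Selmer groups over `K F` of the twisted tensor products are zero. -/
def ZeroF {w : QBar} (ι₁ ι₂ : Emb 2) {m : ℕ}
    (ρ : Fin (2 * m + 1) → Gal w → Matrix (Fin 2) (Fin 2) ℤ_[2]) (F : Type) [Field F] : Prop :=
  ∀ i : F →+* QBar, ZeroOver i ι₁ ι₂ (Few m) (tens ρ cyc m)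

/-- `D` is as in `Good`, and `-1` is a square and `D` is not a square modulo the bad primes. -/
def Vanish {n : ℕ} (t : Fin n → Triple) (D : OK) : Prop :=
  (∃ (N : ℕ) (q : Fin N → OK), Good q D) ∧ ∀ k, Fine (t k) ∧ NonSquare (t k) D

/-- The Selmer groups are zero over `K F` for all the layers `F` of the cyclotomic `ℤ₃`-extension of `ℚ`:
the subfields of odd degree of the cyclotomic fields of the `3 ^ (n + 1)`-th roots of unity. -/
def Tower {w : QBar} (ι₁ ι₂ : Emb 2) {m : ℕ}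
    (ρ : Fin (2 * m + 1) → Gal w → Matrix (Fin 2) (Fin 2) ℤ_[2]) : Prop :=
  ∀ (n : ℕ) (M : Type) [Field M] [NumberField M] [IsCyclotomicExtension {3 ^ (n + 1)} ℚ M]
    (F : IntermediateField ℚ M), Odd (Module.finrank ℚ F) → ZeroF ι₁ ι₂ ρ F

/-- Five triples, with the sets of bad primes `∅`, `{3}`, `{3, 113}`, `{5, 29, 457}`, `{3, 29}`. -/
def five : Fin 5 → Triple :=
  ![⟨⟨-1, 0⟩, ⟨2, -1⟩, ⟨-1, -1⟩⟩, ⟨⟨3, 0⟩, ⟨2, 1⟩, ⟨3, -1⟩⟩, ⟨⟨-5, 8⟩, ⟨6, -9⟩, ⟨-5, -1⟩⟩,
    ⟨⟨-5, 16⟩, ⟨10, -15⟩, ⟨-5, -9⟩⟩, ⟨⟨3, 0⟩, ⟨42, -23⟩, ⟨-19, -23⟩⟩]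

/-! ### The proof -/

section proof

open Pool.Agent.Y676.IS (Cu some_congr)
open Pool.Agent.R384 (al be em LD ac Pt Rg sP Bs Acts gH)

variable {w : QBar} (hw : w ^ 2 = w - 2) {t : Triple} {d : OK}

lemma emb_eq (z : OK) : ((emb (gen w) z : K w) : QBar) = em hw z := by
  unfold emb
  rw [Pool.Agent.R384.em_apply]
  push_cast
  rfl

lemma emb_eq' (z : OK) : emb w z = em hw z := by
  unfold emb
  rw [Pool.Agent.R384.em_apply]

lemma curve_eq : (E w t d).toAffine.baseChange QBar =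
    Cu (al (em hw d) (em hw t.a) (em hw t.b)) (be (em hw d) (em hw t.a) (em hw t.b)) := by
  have h1 : ∀ z, algebraMap (K w) QBar (emb (gen w) z) = em hw z := emb_eq hw
  unfold E curve Cu al be WeierstrassCurve.Affine.baseChange WeierstrassCurve.toAffine
  ext
  · exact map_zero _
  · show algebraMap (K w) QBar (emb (gen w) d * (emb (gen w) t.a ^ 2 + emb (gen w) t.b ^ 2)) = _
    rw [map_mul, map_add, map_pow, map_pow, h1, h1, h1]
  · exact map_zero _
  · show algebraMap (K w) QBar (emb (gen w) d ^ 2 * emb (gen w) t.a ^ 2 * emb (gen w) t.b ^ 2) = _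
    rw [map_mul, map_mul, map_pow, map_pow, map_pow, h1, h1, h1]
  · exact map_zero _

/-- the points of equal curves -/
noncomputable def tr {W W' : Affine QBar} (h : W = W') : W.Point ≃+ W'.Point := by
  subst h
  exact AddEquiv.refl _

lemma tr_some {W W' : Affine QBar} (h : W = W') {a b : QBar} (hab : W.Nonsingular a b) :
    tr h (.some a b hab) = .some a b (h ▸ hab) := by
  subst h
  rfl

lemma tr_act (h : LD (em hw d) (em hw t.a) (em hw t.b) (em hw t.c)) (σ : Gal w) (P : Pts w t d) :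
    tr (curve_eq hw) (act σ P) = ac hw h σ (tr (curve_eq hw) P) := by
  rcases P with _ | ⟨a, b, hab⟩
  · show tr (curve_eq hw) (act σ 0) = ac hw h σ (tr (curve_eq hw) 0)
    simp only [map_zero]
  · rw [tr_some (curve_eq hw) hab]
    exact tr_some (curve_eq hw) (a := σ.toAlgHom a) (b := σ.toAlgHom b)
      ((Affine.baseChange_nonsingular (E w t d).toAffine σ.toAlgHom.injective ..).mpr hab)

lemma d_ne {d : OK} (hd : IsCoprime d 2) : d ≠ 0 := by
  rintro rfl
  have h1 : IsUnit (2 : OK) := isCoprime_zero_left.1 hd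
  rw [Pool.Agent.R384.unit_iff] at h1
  have h2 : Pool.Agent.R384.nn (2 : OK) = 4 := by
    have := Pool.Agent.R384.nn_int 2
    push_cast at this
    rw [this]
  rw [h2] at h1
  norm_num at h1

lemma elliptic (ht : t.Adm) (hd : IsCoprime d 2) (hw : w ^ 2 = w - 2) : (E w t d).IsElliptic := by
  have hne : ∀ z : OK, z ≠ 0 → (emb (gen w) z : K w) ≠ 0 := by
    intro z hz h
    have h1 := emb_eq hw z
    rw [h] at h1
    exact hz (Pool.Agent.R384.em_inj hw h1.symm)
  have habc := ht.ne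
  have ha : t.a ≠ 0 := fun h => habc (by rw [h]; ring)
  have hb : t.b ≠ 0 := fun h => habc (by rw [h]; ring)
  have hc : t.c ≠ 0 := fun h => habc (by rw [h]; ring)
  have hp : (emb (gen w) t.a : K w) ^ 2 = emb (gen w) t.b ^ 2 + emb (gen w) t.c ^ 2 := by
    apply Subtype.ext
    push_cast
    rw [emb_eq hw, emb_eq hw, emb_eq hw, ← map_pow, ← map_pow, ← map_pow, ← map_add, ht.pyth]
  rw [WeierstrassCurve.isElliptic_iff, isUnit_iff_ne_zero]
  have e : (E w t d).Δ = 16 * emb (gen w) d ^ 6 * (emb (gen w) t.a * emb (gen w) t.b *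
      emb (gen w) t.c) ^ 4 := by
    simp only [E, curve, WeierstrassCurve.Δ, WeierstrassCurve.b₂, WeierstrassCurve.b₄,
      WeierstrassCurve.b₆, WeierstrassCurve.b₈]
    generalize emb (gen w) d = d' at *
    generalize emb (gen w) t.a = a at *
    generalize emb (gen w) t.b = b at *
    generalize emb (gen w) t.c = c at *
    linear_combination (16 * d' ^ 6 * a ^ 4 * b ^ 4 * (a ^ 2 - b ^ 2 + c ^ 2)) * hp
  rw [e]
  exact mul_ne_zero (mul_ne_zero (by norm_num) (pow_ne_zero _ (hne _ (d_ne hd)))) (pow_ne_zero _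
    (mul_ne_zero (mul_ne_zero (hne _ ha) (hne _ hb)) (hne _ hc)))

lemma ld (ht : t.Adm) (hd : IsCoprime d 2) : LD (em hw d) (em hw t.a) (em hw t.b) (em hw t.c) := by
  have habc := ht.ne
  refine ⟨Pool.Agent.R384.em_ne hw (d_ne hd), Pool.Agent.R384.em_ne hw fun h => habc (by rw [h]; ring),
    Pool.Agent.R384.em_ne hw fun h => habc (by rw [h]; ring),
    Pool.Agent.R384.em_ne hw fun h => habc (by rw [h]; ring), ?_⟩
  rw [← map_pow, ← map_pow, ← map_pow, ← map_add, ht.pyth]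

lemma inKer_iff {ι : QBar →ₐ[ℚ] PadicAlgCl 2} (P : Pts w t d)
    (h : Rg (ι : QBar →+* PadicAlgCl 2) (tr (curve_eq hw) P)) : InKer (ι : Emb 2) 0 P := by
  rcases P with _ | ⟨x, y, hxy⟩
  · trivial
  · rw [tr_some (curve_eq hw) hxy] at h
    show 1 / 4 < ‖ι (x + 0)‖
    rw [add_zero]
    exact h

lemma inKer_iff' {ι : QBar →ₐ[ℚ] PadicAlgCl 2}
    (h' : LD (em hw d) (em hw t.a) (em hw t.b) (em hw t.c)) (P : Pts w t d)
    (h : Rg (ι : QBar →+* PadicAlgCl 2) (sP h' (tr (curve_eq hw) P))) :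
    InKer (ι : Emb 2) (emb w (d * t.a ^ 2)) P := by
  rcases P with _ | ⟨x, y, hxy⟩
  · trivial
  · rw [tr_some (curve_eq hw) hxy] at h
    show 1 / 4 < ‖ι (x + emb w (d * t.a ^ 2))‖
    rw [emb_eq' hw, map_mul, map_pow]
    exact h

/-- the frame of a curve -/
lemma exists_frame {ι₁ ι₂ : Emb 2} (hp : Places w ι₁ ι₂) (ht : t.Adm) (hd : IsCoprime d 2)
    {r I : QBar} (hr : r ^ 2 = em hp.root d) (hI : I ^ 2 = -1) :
    ∃ (e : Fin 2 → ℕ → Pts w t d) (ρ : Gal w →* Matrix (Fin 2) (Fin 2) ℤ_[2]),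
      Frame ι₁ ι₂ t d e ρ ∧ Pool.Agent.R384.Rho hp.root t.a t.b t.c r I ι₁ ι₂ ρ := by
  have hw := hp.root
  have h₁ := hp.one
  have h₂ := hp.two
  have hld := ld hw ht hd
  obtain ⟨e, ρ, hb, ha, hk1, hk2, hρ⟩ := Pool.Agent.R384.exists_rho hw hld hr hI
    (Pool.Agent.R384.unit_norm hw hd ι₁) (Pool.Agent.R384.unit_norm hw hd ι₂)
    (Pool.Agent.R384.unit_norm hw ht.odd ι₁) (Pool.Agent.R384.unit_norm hw ht.odd ι₂)
    (Pool.Agent.R384.quarter hw ht.two.1 h₁) (Pool.Agent.R384.quarter' hw ht.two.2 h₂)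
  set T := tr (curve_eq hw (t := t) (d := d)) with hT
  refine ⟨fun s n => T.symm (e s n), ρ, ⟨⟨?_, ?_, ?_, ?_⟩, ?_, ?_, ?_⟩, hρ⟩
  · intro s
    show T.symm (e s 0) = 0
    rw [hb.zero, map_zero]
  · intro s n
    show T.symm (e s (n + 1)) + T.symm (e s (n + 1)) = T.symm (e s n)
    rw [← map_add, hb.dbl]
  · intro n P hP
    have h1 : (2 ^ n : ℤ) • T P = 0 := by rw [← map_zsmul, hP, map_zero]
    obtain ⟨k, hk⟩ := hb.span n _ h1
    refine ⟨k, ?_⟩
    apply T.injective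
    rw [map_sum, hk]
    refine Finset.sum_congr rfl fun s _ => ?_
    rw [map_zsmul, T.apply_symm_apply]
  · intro n k hk
    apply hb.indep n k
    have h1 := congrArg T hk
    rw [map_sum, map_zero] at h1
    rw [← h1]
    refine Finset.sum_congr rfl fun s _ => ?_
    rw [map_zsmul, T.apply_symm_apply]
  · intro σ n k hk s
    show act σ (T.symm (e s n)) = ∑ i, k i s • T.symm (e i n)
    apply T.injective
    rw [hT, tr_act hw hld σ, ← hT, T.apply_symm_apply, ha σ n k hk s, map_sum]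
    refine Finset.sum_congr rfl fun i _ => ?_
    rw [map_zsmul, T.apply_symm_apply]
  · intro n
    apply inKer_iff hw
    rw [← hT, T.apply_symm_apply]
    exact hk1 n
  · intro n
    apply inKer_iff' hw hld
    rw [← hT, T.apply_symm_apply]
    exact hk2 n

end proof


section proof2

open Pool.Agent.Helper891_RP (HH mem_HH RC core fin_index mR mR_apply mR_tr ns_of_unique rc_tens below
  tri_ok)

variable {w : QBar} {ι₁ ι₂ : Emb 2} {B : Type} [Fintype B] {S : Set B}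
  {F : Type} [Field F] [NumberField F]

omit [NumberField F] in
lemma mem_galF {i : F →+* QBar} {σ : Gal w} : σ ∈ GalF w i ↔ ∀ x, σ (i x) = i x := by
  unfold GalF
  rw [IntermediateField.mem_fixingSubgroup_iff]
  constructor
  · intro h x
    exact h _ (IntermediateField.subset_adjoin _ _ ⟨x, rfl⟩)
  · intro h x hx
    induction hx using IntermediateField.adjoin_induction with
    | mem z hz =>
      obtain ⟨y, rfl⟩ := hz
      exact h y
    | algebraMap q => exact σ.commutes q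
    | add y z _ _ hy hz => rw [map_add, hy, hz]
    | mul y z _ _ hy hz => rw [map_mul, hy, hz]
    | inv y _ hy => rw [map_inv₀, hy]

lemma galF_eq [IsGalois ℚ F] (i : F →+* QBar) : GalF w i = HH i w := by
  ext σ
  rw [mem_HH, mem_galF]

lemma core' [IsGalois ℚ F] {i : F →+* QBar} {H : Subgroup (Gal w)} (hH : H = HH i w)
    (hw : w ^ 2 = w - 2) (hF : OddField F) {R : Representation ℚ_[2] (Gal w) (B → ℚ_[2])}
    {κ : B → Emb 2} (rc : RC i R κ) {c : H → B → ℚ_[2]} (hc : Continuous c)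
    (hm : ∀ σ τ : H, c (σ * τ) = c σ + R σ (c τ))
    (ho : ∀ (p : ℕ) [Fact p.Prime] (ι : Emb p), p ≠ 2 →
      ∃ y : B → ℚ_[2], ∀ σ : H, (σ : Gal w) ∈ (Inr ι : Set (Gal w)) → c σ = R σ y - y)
    (ht : ∀ b, ∃ y : B → ℚ_[2], ∀ σ : H, (σ : Gal w) ∈ (Dec (κ b) : Set (Gal w)) →
      ∀ b', κ b' = κ b → c σ b' = (R σ y - y) b') :
    ∃ C : Gal w → B → ℚ_[2], (∀ σ : H, C σ = c σ) ∧
      (∀ σ τ, C (σ * τ) = C σ + R σ (C τ)) ∧ Continuous C ∧
      (∀ (p : ℕ) [Fact p.Prime] (ι : Emb p), p ≠ 2 →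
        ∃ y : B → ℚ_[2], ∀ σ ∈ (Inr ι : Set (Gal w)), C σ = R σ y - y) ∧
      ∀ b, ∃ y : B → ℚ_[2], ∀ σ ∈ (Dec (κ b) : Set (Gal w)),
        ∀ b', κ b' = κ b → C σ b' = (R σ y - y) b' := by
  subst hH
  exact core hw hF.ncl hF.deg hF.two hF.seven rc hc hm ho ht

/-- the isomorphism of the Selmer groups -/
theorem iso_of (hw : w ^ 2 = w - 2) (hne : ι₁ ≠ ι₂)
    {R : Representation ℚ_[2] (Gal w) (B → ℚ_[2])} {A : Gal w → (B → ℚ_[2]) → B → ℚ_[2]}
    (hA : ∀ σ v, A σ v = R σ v) [IsGalois ℚ F] (hF : OddField F) {i : F →+* QBar}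
    {κ : B → Emb 2} (rc : RC i R κ) (κ1 : ∀ b ∈ S, κ b = ι₁)
    (κ2 : ∀ b ∉ S, κ b = ι₂) : SameOver i ι₁ ι₂ S A := by
  have k1 : ∀ b, κ b = ι₁ ↔ b ∈ S := fun b =>
    ⟨fun h => by
      by_contra h1
      exact hne (h.symm.trans (κ2 b h1)), κ1 b⟩
  have k2 : ∀ b, κ b = ι₂ ↔ b ∉ S := fun b =>
    ⟨fun h h1 => hne ((κ1 b h1).symm.trans h), κ2 b⟩
  refine ⟨?_, ?_⟩
  · rintro C hC ⟨y, hy⟩
    have hm : ∀ σ τ, C (σ * τ) = C σ + R σ (C τ) := fun σ τ => by rw [hC.mul, hA]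
    obtain ⟨z, hz⟩ := fin_index (H := HH i w) (R := R) hm ⊤ (y := y) (fun h _ hh => by
      rw [← galF_eq] at hh
      funext α
      rw [hy h ⟨⟨h, hh⟩, rfl⟩ α (Set.mem_univ _), hA]
      rfl)
    refine ⟨z, fun σ _ α _ => ?_⟩
    rw [hz σ (Subgroup.mem_top σ), hA]
    rfl
  · intro c hc hs
    have hm : ∀ σ τ : GalF w i, c (σ * τ) = c σ + R σ (c τ) := fun σ τ => by
      rw [hc.mul, hA]
    obtain ⟨C, h1, h2, h3, h4, h5⟩ := core' (galF_eq i) hw hF rc hc.cont hm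
      (fun p _ ι hp => by
        obtain ⟨y, hy⟩ := hs.odd p ι hp
        refine ⟨y, fun σ hσ => ?_⟩
        funext α
        have h : c σ α = A σ y α - y α := hy σ hσ α (Set.mem_univ _)
        rw [h, hA]
        rfl)
      (fun b => by
        by_cases hb : b ∈ S
        · obtain ⟨y, hy⟩ := hs.two₁
          refine ⟨y, fun σ hσ b' hb' => ?_⟩
          rw [κ1 b hb] at hσ hb'
          have h : c σ b' = A σ y b' - y b' := hy σ hσ b' ((k1 b').1 hb')
          rw [h, hA]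
          rfl
        · obtain ⟨y, hy⟩ := hs.two₂
          refine ⟨y, fun σ hσ b' hb' => ?_⟩
          rw [κ2 b hb] at hσ hb'
          have h : c σ b' = A σ y b' - y b' := hy σ hσ b' ((k2 b').1 hb')
          rw [h, hA]
          rfl)
    refine ⟨C, ⟨h3, fun σ τ => by rw [h2, hA]⟩, ⟨?_, ?_, ?_⟩, h1⟩
    · intro p _ ι hp
      obtain ⟨y, hy⟩ := h4 p ι hp
      refine ⟨y, fun σ hσ α _ => ?_⟩
      rw [hy σ hσ, hA]
      rfl
    · by_cases hS : S.Nonempty
      · obtain ⟨b, hb⟩ := hS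
        obtain ⟨y, hy⟩ := h5 b
        rw [κ1 b hb] at hy
        refine ⟨y, fun σ hσ α hα => ?_⟩
        rw [hy σ hσ α ((k1 α).2 hα), hA]
        rfl
      · exact ⟨0, fun σ _ α hα => absurd ⟨α, hα⟩ hS⟩
    · by_cases hS : (Sᶜ : Set B).Nonempty
      · obtain ⟨b, hb⟩ := hS
        obtain ⟨y, hy⟩ := h5 b
        rw [κ2 b hb] at hy
        refine ⟨y, fun σ hσ α hα => ?_⟩
        rw [hy σ hσ α ((k2 α).2 hα), hA]
        rfl
      · exact ⟨0, fun σ _ α hα => absurd ⟨α, hα⟩ hS⟩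

lemma ne_places (hp : Places w ι₁ ι₂) : ι₁ ≠ ι₂ :=
  Pool.Agent.Helper891_RP.ne12 hp.root hp.one hp.two

/-- the general theorem -/
theorem general (hp : Places w ι₁ ι₂) {ρ : Gal w → Matrix B B ℤ_[2]} (hs : Splits ι₁ ι₂ S ρ)
    (hF : OddField F) (hg : Ramified ρ F) (i : F →+* QBar) : SameOver i ι₁ ι₂ S (mat ρ) := by
  have := hF.gal
  have hw := hp.root
  have hne := ne_places hp
  obtain ⟨ρ', hρ'⟩ : ∃ ρ' : Gal w →* Matrix B B ℤ_[2], ∀ σ, ρ' σ = ρ σ :=
    ⟨⟨⟨ρ, hs.rep.1⟩, hs.rep.2⟩, fun σ => rfl⟩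
  set κ : B → Emb 2 := fun b => if b ∈ S then ι₁ else ι₂ with hκ
  have κ1 : ∀ b ∈ S, κ b = ι₁ := fun b hb => if_pos hb
  have κ2 : ∀ b ∉ S, κ b = ι₂ := fun b hb => if_neg hb
  have k1 : ∀ b, κ b = ι₁ ↔ b ∈ S := fun b =>
    ⟨fun h => by
      by_contra h1
      exact hne (h.symm.trans (κ2 b h1)), κ1 b⟩
  have k2 : ∀ b, κ b = ι₂ ↔ b ∉ S := fun b =>
    ⟨fun h h1 => hne ((κ1 b h1).symm.trans h), κ2 b⟩
  refine iso_of hw hne (R := mR ρ') (fun σ v => by
    funext α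
    rw [mR_apply, hρ']
    rfl) hF (κ := κ) ⟨mR_tr (fun σ α β => by rw [hρ']; exact hs.two σ α β), ?_, ?_⟩ κ1 κ2
  · intro b σ hσ v hv b' hb'
    rw [mR_apply, hρ']
    apply Finset.sum_eq_zero
    intro β _
    by_cases hb : b ∈ S
    · rw [κ1 b hb] at hσ hv hb'
      by_cases hβ : β ∈ S
      · rw [hv β ((k1 β).2 hβ), mul_zero]
      · rw [hs.st₁ σ hσ b' ((k1 b').1 hb') β hβ, PadicInt.coe_zero, zero_mul]
    · rw [κ2 b hb] at hσ hv hb'
      by_cases hβ : β ∈ S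
      · rw [hs.st₂ σ hσ b' ((k2 b').1 hb') β hβ, PadicInt.coe_zero, zero_mul]
      · rw [hv β ((k2 β).2 hβ), mul_zero]
  · intro p _ hp ι
    rcases hg p hp with h | h
    · right
      exact ns_of_unique i hw hF.deg h
    · left
      intro σ hσ v
      funext α
      rw [mR_apply, hρ', h ι σ hσ, Finset.sum_eq_single α]
      · rw [Matrix.one_apply_eq, PadicInt.coe_one, one_mul]
      · intro β _ hβ
        rw [Matrix.one_apply_ne (Ne.symm hβ), PadicInt.coe_zero, zero_mul]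
      · intro h
        exact absurd (Finset.mem_univ α) h

lemma tens_eq {m : ℕ} (ρ : Fin (2 * m + 1) → Gal w →* Matrix (Fin 2) (Fin 2) ℤ_[2]) (σ : Gal w)
    (v : (Fin (2 * m + 1) → Fin 2) → ℚ_[2]) : tens (fun k σ => ρ k σ) cyc m σ v =
      Pool.Agent.R384.tR ρ (Pool.Agent.R384.cyc w) m σ v := by
  funext α
  rw [Pool.Agent.R384.tR_apply]
  rfl

omit [NumberField F] in
/-- the restriction of the vanishing -/
theorem zero_of (hp : Places w ι₁ ι₂) {m : ℕ}
    {ρ : Fin (2 * m + 1) → Gal w →* Matrix (Fin 2) (Fin 2) ℤ_[2]}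
    {a b c d : Fin (2 * m + 1) → OK} {rk : Fin (2 * m + 1) → QBar} {r I : QBar} {D s : OK}
    (hr : r ^ 2 = Pool.Agent.R384.em hp.root D) (hI : I ^ 2 = -1)
    (hrk : ∀ k, rk k ^ 2 = Pool.Agent.R384.em hp.root (d k)) (hs : s ≠ 0)
    (hrs : r * Pool.Agent.R384.em hp.root s = ∏ k, rk k)
    (hρ : ∀ k, Pool.Agent.R384.Rho hp.root (a k) (b k) (c k) (rk k) I ι₁ ι₂ (ρ k))
    (h0 : ∀ k, a k * b k * c k ≠ 0) {N : ℕ} {q : Fin N → OK} (hg : Good q D)
    (hbad : ∀ k π, Prime π → ¬ π ∣ 2 → π ∣ a k * b k * c k → IsSquareMod π (-1) ∧ ¬ IsSquareMod π D)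
    {i : F →+* QBar} (hiso : SameOver i ι₁ ι₂ (Few m) (tens (fun k σ => ρ k σ) cyc m)) :
    ZeroOver i ι₁ ι₂ (Few m) (tens (fun k σ => ρ k σ) cyc m) := by
  intro x hx hxs
  obtain ⟨C, hC, hCs, hCx⟩ := hiso.surj x hx hxs
  have hf : Pool.Agent.R384.VCoc (Pool.Agent.R384.tR ρ (Pool.Agent.R384.cyc w) m) C :=
    ⟨hC.cont, fun σ τ => by rw [hC.mul, tens_eq]⟩
  obtain ⟨y, hy⟩ := Pool.Agent.R384.prod_vanish hp.root (fun j => ⟨hg.prime j, hg.one j⟩) hg.inj
    hg.five hg.indec hg.prod hr hI hp.one hp.two rfl hρ hrk hs hrs h0 hbad hf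
    (fun p _ ι hp => by
      obtain ⟨y, hy⟩ := hCs.odd p ι hp
      refine ⟨y, fun σ hσ => ?_⟩
      funext α
      rw [hy σ hσ α (Set.mem_univ _), tens_eq]
      rfl)
    (by
      obtain ⟨y, hy⟩ := hCs.two₁
      refine ⟨y, fun σ hσ α hα => ?_⟩
      rw [hy σ hσ α hα, tens_eq]
      rfl)
    (by
      obtain ⟨y, hy⟩ := hCs.two₂
      refine ⟨y, fun σ hσ α hα => ?_⟩
      rw [hy σ hσ α (by
        intro h1
        have h3 := Pool.Agent.R384.cn_add α
        have h4 : Pool.Agent.R384.cn α 0 ≤ m := h1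
        have h5 : Pool.Agent.R384.cn α 1 ≤ m := hα
        omega), tens_eq]
      rfl)
  refine ⟨y, fun σ _ α _ => ?_⟩
  have h : tens (fun k σ => ρ k σ) cyc m (σ : Gal w) y α = _ :=
    congrFun (tens_eq ρ (σ : Gal w) y) α
  show x σ α = tens (fun k σ => ρ k σ) cyc m (σ : Gal w) y α - y α
  rw [← hCx, hy σ, h]
  rfl

lemma gal_layer (n : ℕ) (M : Type) [Field M] [NumberField M]
    [IsCyclotomicExtension {3 ^ (n + 1)} ℚ M] (F : IntermediateField ℚ M) :
    @IsGalois ℚ _ F _ DivisionRing.toRatAlgebra := by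
  have hz : NeZero (3 ^ (n + 1)) := ⟨pow_ne_zero _ (by norm_num)⟩
  have hab : IsAbelianGalois ℚ M := IsCyclotomicExtension.isAbelianGalois {3 ^ (n + 1)} ℚ M
  have h1 : @IsAbelianGalois ℚ F _ _ F.algebra' :=
    @IsAbelianGalois.of_algHom ℚ F M _ _ F.algebra' _ _ F.val hab
  have e : F.algebra' = (DivisionRing.toRatAlgebra : Algebra ℚ F) := Subsingleton.elim _ _
  rw [← e]
  exact h1.toIsGalois

lemma layer (n : ℕ) (M : Type) [Field M] [NumberField M] [IsCyclotomicExtension {3 ^ (n + 1)} ℚ M]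
    (F : IntermediateField ℚ M) (hodd : Odd (Module.finrank ℚ F)) :
    OddField F ∧ ∀ p : ℕ, p.Prime → Nine p → OnePrime F p := by
  obtain ⟨h2, h7, hN⟩ := Pool.Agent.Y682.XD.three_hyp n M F hodd
  have hone : ∀ p : ℕ, p.Prime → (Ideal.span {((p : ℕ) : 𝓞 F)}).IsPrime → OnePrime F p := by
    intro p hp h v w hv hw
    obtain ⟨u, -, hu⟩ := Pool.Agent.Y682.XT.place_unique hp h
    rw [(hu v).1 hv, (hu w).1 hw]
  refine ⟨⟨gal_layer n M F, hodd, hN, hone 2 Nat.prime_two h2, hone 7 (by norm_num) h7⟩, ?_⟩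
  intro p hp h9
  rcases h9 with h3 | h9
  · subst h3
    intro v w hv hw
    exact Pool.Agent.Y419.XD.s_ram 3 n Nat.prime_three M F v w hv hw
  · exact hone p hp (Pool.Agent.Y682.YQ.inert9 n M F hodd hp h9)

/-- the theorem for the products -/
theorem products {m : ℕ} {t : Fin (2 * m + 1) → Triple} {d : Fin (2 * m + 1) → OK} {D : OK}
    (hc : Curves t d D) (hp : Places w ι₁ ι₂) :
    ∃ ρ : Fin (2 * m + 1) → Gal w → Matrix (Fin 2) (Fin 2) ℤ_[2], Framed ι₁ ι₂ t d ρ ∧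
      ∀ (F : Type) [Field F] [NumberField F], OddField F → Bad t D F →
        IsoF ι₁ ι₂ ρ F ∧ (Vanish t D → ZeroF ι₁ ι₂ ρ F) := by
  obtain ⟨ht, hD, s, hprod⟩ := hc
  have hs : s ≠ 0 := by
    rintro rfl
    rw [zero_pow two_ne_zero, mul_zero] at hprod
    obtain ⟨k, _, hk⟩ := Finset.prod_eq_zero_iff.1 hprod
    exact d_ne (ht k).2 hk
  have hrk : ∀ k, ∃ r : QBar, r ^ 2 = Pool.Agent.R384.em hp.root (d k) := fun k =>
    IsAlgClosed.exists_pow_nat_eq _ (by norm_num)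
  choose rk hrk using hrk
  obtain ⟨I, hI⟩ : ∃ I : QBar, I ^ 2 = -1 := IsAlgClosed.exists_pow_nat_eq _ (by norm_num)
  have hs' := Pool.Agent.R384.em_ne hp.root hs
  have hrs : (∏ k, rk k) / Pool.Agent.R384.em hp.root s * Pool.Agent.R384.em hp.root s =
      ∏ k, rk k := div_mul_cancel₀ _ hs'
  have hr : ((∏ k, rk k) / Pool.Agent.R384.em hp.root s) ^ 2 =
      Pool.Agent.R384.em hp.root D := by
    rw [div_pow, ← Finset.prod_pow, div_eq_iff (pow_ne_zero _ hs')]
    simp only [hrk]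
    rw [← map_prod, hprod, map_mul, map_pow]
  have hfr := fun k => exists_frame hp (ht k).1 (ht k).2 (hrk k) hI
  choose e ρ hfr hρ using hfr
  refine ⟨fun k σ => ρ k σ, ⟨e, hfr⟩, ?_⟩
  intro F _ _ hF hbad
  have := hF.gal
  have hne := ne_places hp
  have key : ∀ i : F →+* QBar, SameOver i ι₁ ι₂ (Few m) (tens (fun k σ => ρ k σ) cyc m) := by
    intro i
    have rc := rc_tens i hp.root hr hI hD hrk hs hrs hρ rfl hp.one hp.two (fun k => (ht k).1.ne)
      (fun p hp' hp2 π hπ hd hx => ns_of_unique i hp.root hF.deg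
        (hbad p hp'.out hp2 ⟨π, hπ, hd, hx⟩))
    exact iso_of hp.root hne (tens_eq ρ) hF rc (fun b hb => if_pos hb) (fun b hb => if_neg hb)
  refine ⟨key, ?_⟩
  rintro ⟨⟨N, q, hg⟩, hfine⟩ i
  exact zero_of hp hr hI hrk hs hrs hρ (fun k => (ht k).1.ne) hg
    (fun k π hπ h2 hd => ⟨(hfine k).1 π ⟨hπ, h2, hd⟩, (hfine k).2 π ⟨hπ, h2, hd⟩⟩) (key i)

lemma tnine_of {t : Triple} (h : t.Adm) {L : List (ℕ × OK)}
    (hL : ∀ q ∈ L, q.1.Prime ∧ Nine q.1 ∧ ((q.1 : ℕ) : OK) ∣ q.2 ^ 2 + 1) {k : ℕ}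
    (hx : (Pool.Agent.R384.nn (t.a * t.b * t.c)).natAbs ∣ (2 * (L.map Prod.fst).prod) ^ k) :
    TNine t := by
  refine ⟨h, fun π ⟨h1, h2, h3⟩ => (tri_ok hL hx h1 h2 h3).1, ?_⟩
  rintro p hp hp2 ⟨π, hπ, hd, hx'⟩
  refine (tri_ok hL hx hπ (fun h2 => hp2 ?_) hx').2 p hp hd
  -- `π` divides `2` and `p`
  have h5 := below hπ hp hd h2
  have h6 : (Pool.Agent.R384.nn (2 : OK)).natAbs = 2 ^ 2 := by
    have := Pool.Agent.R384.nn_int 2
    push_cast at this
    rw [this]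
    norm_num
  rw [h6] at h5
  exact (Nat.prime_dvd_prime_iff_eq hp Nat.prime_two).1 (hp.dvd_of_dvd_pow h5)

lemma ext2 {x y : OK} (h1 : x.re = y.re) (h2 : x.im = y.im) : x = y := QuadraticAlgebra.ext h1 h2

lemma adm_of {a b c y u v : OK} (h1 : a ^ 2 = b ^ 2 + c ^ 2)
    (h2 : Pool.Agent.R384.nn a * Pool.Agent.R384.nn b * Pool.Agent.R384.nn c ≠ 0)
    (h3 : a = 1 + 2 * y) (h4 : b = om ^ 2 * u) (h5 : c = (1 - om) ^ 2 * v) :
    Triple.Adm ⟨a, b, c⟩ := by
  refine ⟨h1, ?_, ⟨1, -y, ?_⟩, ⟨u, h4⟩, ⟨v, h5⟩⟩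
  · intro h
    apply h2
    rw [← Pool.Agent.R384.nn_mul, ← Pool.Agent.R384.nn_mul]
    exact Pool.Agent.R384.nn_zero_iff.2 h
  · show 1 * a + -y * 2 = 1
    rw [h3]
    ring

lemma mk_mul (a b c d : ℤ) :
    (⟨a, b⟩ : OK) * ⟨c, d⟩ = ⟨a * c - 2 * b * d, a * d + b * c + b * d⟩ := by
  apply ext2
  · rw [QuadraticAlgebra.re_mul]; ring
  · rw [QuadraticAlgebra.im_mul, one_mul]

lemma mk_add (a b c d : ℤ) : (⟨a, b⟩ : OK) + ⟨c, d⟩ = ⟨a + c, b + d⟩ := rfl

lemma one_mk : (1 : OK) = ⟨1, 0⟩ := rfl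

lemma two_mk : (2 : OK) = ⟨2, 0⟩ := by
  apply ext2
  · rw [QuadraticAlgebra.re_ofNat]
  · rw [QuadraticAlgebra.im_ofNat]

lemma om_two : om ^ 2 = ⟨-2, 1⟩ := by
  rw [pow_two]
  unfold om
  rw [mk_mul]
  norm_num

lemma om_two' : (1 - om) ^ 2 = ⟨-1, -1⟩ := by
  have h : (1 - om : OK) = ⟨1, -1⟩ := by
    apply ext2
    · show (1 : ℤ) - 0 = 1
      norm_num
    · show (0 : ℤ) - 1 = -1
      norm_num
  rw [h, pow_two, mk_mul]
  norm_num

/-- the examples -/
lemma examples : TNine ⟨⟨-1, 0⟩, ⟨2, -1⟩, ⟨-1, -1⟩⟩ ∧ TNine ⟨⟨3, 0⟩, ⟨2, 1⟩, ⟨3, -1⟩⟩ ∧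
      TNine ⟨⟨-5, 8⟩, ⟨6, -9⟩, ⟨-5, -1⟩⟩ ∧ TNine ⟨⟨-5, 16⟩, ⟨10, -15⟩, ⟨-5, -9⟩⟩ ∧
      TNine ⟨⟨3, 0⟩, ⟨42, -23⟩, ⟨-19, -23⟩⟩ := by
  have d3 : ((3 : ℕ) : OK) ∣ (⟨1, 1⟩ : OK) ^ 2 + 1 := Pool.Agent.Helper891_RP.dvd3
  have di : ∀ (p : ℕ) (n u : ℤ), ((p : ℕ) : ℤ) * u = n ^ 2 + 1 →
      ((p : ℕ) : OK) ∣ (⟨n, 0⟩ : OK) ^ 2 + 1 := by
    intro p n u h
    refine ⟨⟨u, 0⟩, ?_⟩
    have e : ((p : ℕ) : OK) = ⟨(p : ℤ), 0⟩ := rfl
    rw [e, one_mk, pow_two, mk_mul, mk_mul, mk_add]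
    apply ext2
    · show n * n - 2 * 0 * 0 + 1 = (p : ℤ) * u - 2 * 0 * 0
      linear_combination -h
    · show n * 0 + 0 * n + 0 * 0 + 0 = (p : ℤ) * 0 + 0 * u + 0 * 0
      ring
  have h0 : TNine ⟨⟨-1, 0⟩, ⟨2, -1⟩, ⟨-1, -1⟩⟩ := by
    refine tnine_of (L := []) (k := 4) (adm_of (y := ⟨-1, 0⟩) (u := ⟨-1, 0⟩)
      (v := ⟨1, 0⟩) ?_ ?_ ?_ ?_ ?_) ?_ ?_
    · simp only [pow_two, mk_mul, mk_add]; norm_num
    · norm_num [Pool.Agent.R384.nn]
    · rw [one_mk, two_mk, mk_mul, mk_add]; norm_num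
    · rw [om_two, mk_mul]; norm_num
    · rw [om_two', mk_mul]; norm_num
    · simp
    · rw [Pool.Agent.R384.nn_mul, Pool.Agent.R384.nn_mul]
      norm_num [Pool.Agent.R384.nn]
  have h1 : TNine ⟨⟨3, 0⟩, ⟨2, 1⟩, ⟨3, -1⟩⟩ := by
    refine tnine_of (L := [(3, ⟨1, 1⟩)]) (k := 6) (adm_of (y := ⟨1, 0⟩) (u := ⟨0, -1⟩)
      (v := ⟨-1, 1⟩) ?_ ?_ ?_ ?_ ?_) ?_ ?_
    · simp only [pow_two, mk_mul, mk_add]; norm_num
    · norm_num [Pool.Agent.R384.nn]
    · rw [one_mk, two_mk, mk_mul, mk_add]; norm_num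
    · rw [om_two, mk_mul]; norm_num
    · rw [om_two', mk_mul]; norm_num
    · intro q hq
      simp only [List.mem_cons, List.not_mem_nil, or_false] at hq
      subst hq
      exact ⟨by norm_num, by unfold Nine; norm_num, d3⟩
    · rw [Pool.Agent.R384.nn_mul, Pool.Agent.R384.nn_mul]
      norm_num [Pool.Agent.R384.nn]
  have h2 : TNine ⟨⟨-5, 8⟩, ⟨6, -9⟩, ⟨-5, -1⟩⟩ := by
    refine tnine_of (L := [(3, ⟨1, 1⟩), (113, ⟨15, 0⟩)]) (k := 9) (adm_of (y := ⟨-3, 4⟩) (u := ⟨-6, 3⟩)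
      (v := ⟨3, -1⟩) ?_ ?_ ?_ ?_ ?_) ?_ ?_
    · simp only [pow_two, mk_mul, mk_add]; norm_num
    · norm_num [Pool.Agent.R384.nn]
    · rw [one_mk, two_mk, mk_mul, mk_add]; norm_num
    · rw [om_two, mk_mul]; norm_num
    · rw [om_two', mk_mul]; norm_num
    · intro q hq
      simp only [List.mem_cons, List.not_mem_nil, or_false] at hq
      rcases hq with rfl | rfl
      · exact ⟨by norm_num, by unfold Nine; norm_num, d3⟩
      · exact ⟨by norm_num, by unfold Nine; norm_num, di 113 15 2 (by norm_num)⟩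
    · rw [Pool.Agent.R384.nn_mul, Pool.Agent.R384.nn_mul]
      norm_num [Pool.Agent.R384.nn]
  have h3 : TNine ⟨⟨-5, 16⟩, ⟨10, -15⟩, ⟨-5, -9⟩⟩ := by
    refine tnine_of (L := [(5, ⟨2, 0⟩), (29, ⟨12, 0⟩), (457, ⟨109, 0⟩)]) (k := 7) (adm_of (y := ⟨-3, 8⟩) (u := ⟨-10, 5⟩)
      (v := ⟨7, 1⟩) ?_ ?_ ?_ ?_ ?_) ?_ ?_
    · simp only [pow_two, mk_mul, mk_add]; norm_num
    · norm_num [Pool.Agent.R384.nn]
    · rw [one_mk, two_mk, mk_mul, mk_add]; norm_num
    · rw [om_two, mk_mul]; norm_num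
    · rw [om_two', mk_mul]; norm_num
    · intro q hq
      simp only [List.mem_cons, List.not_mem_nil, or_false] at hq
      rcases hq with rfl | rfl | rfl
      · exact ⟨by norm_num, by unfold Nine; norm_num, di 5 2 1 (by norm_num)⟩
      · exact ⟨by norm_num, by unfold Nine; norm_num, di 29 12 5 (by norm_num)⟩
      · exact ⟨by norm_num, by unfold Nine; norm_num, di 457 109 26 (by norm_num)⟩
    · rw [Pool.Agent.R384.nn_mul, Pool.Agent.R384.nn_mul]
      norm_num [Pool.Agent.R384.nn]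
  have h4 : TNine ⟨⟨3, 0⟩, ⟨42, -23⟩, ⟨-19, -23⟩⟩ := by
    refine tnine_of (L := [(3, ⟨1, 1⟩), (29, ⟨12, 0⟩)]) (k := 12) (adm_of (y := ⟨1, 0⟩) (u := ⟨-22, 1⟩)
      (v := ⟨21, 1⟩) ?_ ?_ ?_ ?_ ?_) ?_ ?_
    · simp only [pow_two, mk_mul, mk_add]; norm_num
    · norm_num [Pool.Agent.R384.nn]
    · rw [one_mk, two_mk, mk_mul, mk_add]; norm_num
    · rw [om_two, mk_mul]; norm_num
    · rw [om_two', mk_mul]; norm_num
    · intro q hq
      simp only [List.mem_cons, List.not_mem_nil, or_false] at hq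
      rcases hq with rfl | rfl
      · exact ⟨by norm_num, by unfold Nine; norm_num, d3⟩
      · exact ⟨by norm_num, by unfold Nine; norm_num, di 29 12 5 (by norm_num)⟩
    · rw [Pool.Agent.R384.nn_mul, Pool.Agent.R384.nn_mul]
      norm_num [Pool.Agent.R384.nn]
  exact ⟨h0, h1, h2, h3, h4⟩

end proof2

/-- **Theorem.** Let `F` be a Galois extension of `ℚ` of odd degree and narrow class number, with one
prime above `2` and above `7`.
(1) For a representation of the absolute Galois group of `K` with a lattice as in `Splits`, which is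
unramified at the odd primes `p` above which `F` has several primes, the Selmer group over `K F` is
isomorphic by the restriction to the Selmer group over `K`.
(2) This holds for the twisted tensor products of an odd number of Tate modules of curves of the family.
Their Selmer groups over `K F` are zero if `D` is as in `Good` and `-1` is a square and `D` is not a
square modulo the bad primes.
(3) For every finite set of triples as in `TNine` there are infinitely many `D` such that the Selmer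
groups are zero in the cyclotomic `ℤ₃`-extension, for all the products of curves with triples in this set
and `∏ d k = D` modulo squares. There are at least five triples as in `TNine`. -/
theorem result :
    (∀ (w : QBar) (ι₁ ι₂ : Emb 2), Places w ι₁ ι₂ → ∀ (B : Type) [Fintype B] (S : Set B)
      (ρ : Gal w → Matrix B B ℤ_[2]), Splits ι₁ ι₂ S ρ → ∀ (F : Type) [Field F] [NumberField F],
      OddField F → Ramified ρ F → ∀ i : F →+* QBar, SameOver i ι₁ ι₂ S (mat ρ)) ∧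
    (∀ (m : ℕ) (t : Fin (2 * m + 1) → Triple) (d : Fin (2 * m + 1) → OK) (D : OK), Curves t d D →
      ∀ (w : QBar) (ι₁ ι₂ : Emb 2), Places w ι₁ ι₂ → (∀ k, (E w (t k) (d k)).IsElliptic) ∧
        ∃ ρ : Fin (2 * m + 1) → Gal w → Matrix (Fin 2) (Fin 2) ℤ_[2], Framed ι₁ ι₂ t d ρ ∧
          ∀ (F : Type) [Field F] [NumberField F], OddField F → Bad t D F →
            IsoF ι₁ ι₂ ρ F ∧ (Vanish t D → ZeroF ι₁ ι₂ ρ F)) ∧
    (∀ T : Finset Triple, (∀ t ∈ T, TNine t) → {D : OK | (∃ q : Fin 2 → OK, Good q D) ∧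
      ∀ (m : ℕ) (t : Fin (2 * m + 1) → Triple) (d : Fin (2 * m + 1) → OK), (∀ k, t k ∈ T) →
      Curves t d D → ∀ (w : QBar) (ι₁ ι₂ : Emb 2), Places w ι₁ ι₂ →
        ∃ ρ : Fin (2 * m + 1) → Gal w → Matrix (Fin 2) (Fin 2) ℤ_[2],
          Framed ι₁ ι₂ t d ρ ∧ Tower ι₁ ι₂ ρ}.Infinite) ∧
    ∀ j, TNine (five j) := by
  refine ⟨?_, ?_, ?_, ?_⟩
  · intro w ι₁ ι₂ hp B _ S ρ hs F _ _ hF hg i
    exact general hp hs hF hg i
  · intro m t d D hc w ι₁ ι₂ hp
    exact ⟨fun k => elliptic (hc.1 k).1 (hc.1 k).2 hp.root, products hc hp⟩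
  · intro T hT
    set x : OK := ∏ t ∈ T, t.a * t.b * t.c with hx
    have hx0 : x ≠ 0 := Finset.prod_ne_zero_iff.2 fun t ht => (hT t ht).1.ne
    refine (Pool.Agent.Helper891_RP.inf9 hx0 ?_).mono ?_
    · intro π hπ h2 hd
      obtain ⟨t, ht, hd'⟩ := hπ.exists_mem_finset_dvd hd
      exact (hT t ht).2.1 π ⟨hπ, h2, hd'⟩
    · rintro D ⟨⟨q, hq, hD⟩, hns, h9⟩
      have hgood : Good q D := ⟨fun i => (hq.pr i).prime, fun i => (hq.pr i).one, hq.inj, Or.inl hD,
        hq.five, hq.ind⟩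
      refine ⟨⟨q, hgood⟩, ?_⟩
      intro m t d htT hc w ι₁ ι₂ hp
      obtain ⟨ρ, hfr, hall⟩ := products hc hp
      refine ⟨ρ, hfr, ?_⟩
      intro n M _ _ _ F hodd
      obtain ⟨hF, hone⟩ := layer n M F hodd
      refine (hall F hF (fun p hp hp2 hbel => hone p hp ?_)).2 ⟨⟨2, q, hgood⟩, fun k => ?_⟩
      · obtain ⟨π, hπ, hd, hdx⟩ := hbel
        rcases hπ.dvd_or_dvd hdx with h | h
        · rcases h9 p π hp hπ hd h with h3 | h3
          · exact Or.inr (Or.inl h3)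
          · exact Or.inr (Or.inr (Or.inl h3))
        · obtain ⟨k, -, hk⟩ := hπ.exists_mem_finset_dvd h
          exact (hT _ (htT k)).2.2 p hp hp2 ⟨π, hπ, hd, hk⟩
      · refine ⟨(hT _ (htT k)).2.1, ?_⟩
        rintro π ⟨hπ, h2, hd⟩
        exact hns π hπ h2 (hd.trans (Finset.dvd_prod_of_mem
          (fun t : Triple => t.a * t.b * t.c) (htT k)))
  · obtain ⟨h0, h1, h2, h3, h4⟩ := examples
    intro j
    fin_cases j
    exacts [h0, h1, h2, h3, h4]

end Pool.Agent.Results.MP_787500_nt.OddBaseChange
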